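import Pool.Agent.H514.FR.Defs2

/-!
Task FR-CYC1 (owner helper514). A curve `y² = x³ + A x + B` with a rational cyclic subgroup of order
four (definition `Cyc4` in `Pool/Agent/H514/FR/Defs2.lean`) has the form
`A = s² - 3 e²`, `B = e (2 e² - s²)` with integers `e`, `s`.

Proof. Let `P` be the point of order four over `ℚ̄` (`QB = AlgebraicClosure ℚ`), `σ P = ± P` for all `σ`.
`P ≠ 0`, so `P = (x, y)` (`Affine.Point.some x y h`), and `y ≠ 0` (otherwise `P + P = 0`, e.g.
`Affine.Point.add_self_of_Y_eq`; `-P = (x, -y)` as `a₁ = a₃ = 0`).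
(1) `σ x = x` for all `σ` (the first coordinate of `gact W σ P` is `σ x`, the one of `-P` is `x`), so `x` is
rational: `x = algebraMap ℚ QB q` (ℚ̄/ℚ is Galois: `IsGalois`/`InfiniteGalois.mem_bot_iff_fixed` or
`IsGalois.mem_bot_iff_fixed`; see also `Pool.Graph...TH841.SH.Kum`, `isGalQB`).
(2) `T = P + P ≠ 0` has order two: `T = (e, 0)` with `e³ + A e + B = 0`; by the doubling formula
(`Affine.Point.add_self_of_Y_ne`) `e = l² - 2 x` with `l = (3 x² + A) / (2 y)`, and
`0 = -(y + l (e - x))` i.e. `y = l (x - e)`: so `2 y² = (3 x² + A) (x - e)`.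
As `y² = x³ + A x + B = (x - e) (x² + e x + e² + A)` and `x ≠ e` (otherwise `y = 0`):
`2 (x² + e x + e² + A) = 3 x² + A`, that is `(x - e)² = 3 e² + A`.
(3) `e` is rational: `e = l² - 2 x = (3 x² + A)² / (4 (x³ + A x + B)) - 2 x` with rational `x`. It is a root of the
monic polynomial `X³ + A X + B`, so an integer (e.g. `isInteger_of_is_root_of_monic`, or
`IsIntegrallyClosed.isIntegral_iff`, or `Rat`/`num_dvd`...). `s = x - e` is rational and `s² = 3 e² + A` is an
integer, so `s` is an integer. Then `A = s² - 3 e²` and `B = - e³ - A e = e (2 e² - s²)`.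
-/

set_option autoImplicit false

open scoped Classical

namespace Pool.Agent.H514.FR

open WeierstrassCurve Pool.Agent.W262.SH

/-- the algebra of the doubling -/
theorem cyc_core {K : Type} [Field K] (A B x y e l : K) (hy : y ≠ 0)
    (hc : y ^ 2 = x ^ 3 + A * x + B) (hl : l * (2 * y) = 3 * x ^ 2 + A)
    (he : e = l ^ 2 - 2 * x) (ht : y = l * (x - e)) (hc' : e ^ 3 + A * e + B = 0) :
    (x - e) ^ 2 = 3 * e ^ 2 + A ∧
      e * (4 * (x ^ 3 + A * x + B)) = (3 * x ^ 2 + A) ^ 2 - 8 * x * (x ^ 3 + A * x + B) := by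
  have hxe : x - e ≠ 0 := by
    intro h
    rw [h, mul_zero] at ht
    exact hy ht
  constructor
  · have h1 : (x - e) * ((x - e) ^ 2 - (3 * e ^ 2 + A)) = 0 := by
      linear_combination 2 * hc + 2 * hc' - 2 * y * ht - (x - e) * hl
    have h2 := (mul_eq_zero.mp h1).resolve_left hxe
    linear_combination h2
  · rw [← hl, ← hc, he]
    ring

/-- the coordinates of the double of a point of order four -/
theorem cyc_pt {K : Type} [Field K] [CharZero K] (W : WeierstrassCurve.Affine K) (A B : K)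
    (h1 : W.a₁ = 0) (h2 : W.a₂ = 0) (h3 : W.a₃ = 0) (h4 : W.a₄ = A) (h6 : W.a₆ = B) (x y : K)
    (h : W.Nonsingular x y)
    (hne : WeierstrassCurve.Affine.Point.some x y h + WeierstrassCurve.Affine.Point.some x y h ≠ 0)
    (h0 : (WeierstrassCurve.Affine.Point.some x y h + WeierstrassCurve.Affine.Point.some x y h) +
      (WeierstrassCurve.Affine.Point.some x y h + WeierstrassCurve.Affine.Point.some x y h) = 0) :
    ∃ e l : K, y ≠ 0 ∧ y ^ 2 = x ^ 3 + A * x + B ∧ l * (2 * y) = 3 * x ^ 2 + A ∧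
      e = l ^ 2 - 2 * x ∧ y = l * (x - e) ∧ e ^ 3 + A * e + B = 0 := by
  have hneg : ∀ u v : K, W.negY u v = -v := by
    intro u v
    simp [WeierstrassCurve.Affine.negY, h1, h3]
  have hyn : y ≠ W.negY x y := fun hy => hne (WeierstrassCurve.Affine.Point.add_self_of_Y_eq hy)
  have hy0 : y ≠ 0 := by
    intro hy
    apply hyn
    rw [hneg, hy, neg_zero]
  rw [WeierstrassCurve.Affine.Point.add_self_of_Y_ne hyn] at h0
  have ht : W.addY x x y (W.slope x x y y) = 0 := by
    by_contra hn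
    have hyn' : W.addY x x y (W.slope x x y y) ≠
        W.negY (W.addX x x (W.slope x x y y)) (W.addY x x y (W.slope x x y y)) := by
      rw [hneg]
      intro hh
      apply hn
      have h2 : (2 : K) * W.addY x x y (W.slope x x y y) = 0 := by linear_combination hh
      exact (mul_eq_zero.mp h2).resolve_left two_ne_zero
    rw [WeierstrassCurve.Affine.Point.add_self_of_Y_ne hyn'] at h0
    exact WeierstrassCurve.Affine.Point.some_ne_zero _ h0
  have hl : W.slope x x y y * (2 * y) = 3 * x ^ 2 + A := by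
    rw [WeierstrassCurve.Affine.slope_of_Y_ne rfl hyn, hneg, h1, h2, h4, sub_neg_eq_add, ← two_mul,
      div_mul_cancel₀ _ (mul_ne_zero two_ne_zero hy0)]
    ring
  have hx : W.addX x x (W.slope x x y y) = W.slope x x y y ^ 2 - 2 * x := by
    simp only [WeierstrassCurve.Affine.addX, h1, h2]
    ring
  have hcv : y ^ 2 = x ^ 3 + A * x + B := by
    have hq := (WeierstrassCurve.Affine.equation_iff x y).mp h.1
    rw [h1, h2, h3, h4, h6] at hq
    linear_combination hq
  have hcv' : (W.addX x x (W.slope x x y y)) ^ 3 + A * (W.addX x x (W.slope x x y y)) + B = 0 := by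
    have hn := WeierstrassCurve.Affine.nonsingular_add h h (fun hxy => hyn hxy.2)
    have hq := (WeierstrassCurve.Affine.equation_iff _ _).mp hn.1
    rw [h1, h2, h3, h4, h6, ht] at hq
    linear_combination -hq
  refine ⟨W.addX x x (W.slope x x y y), W.slope x x y y, hy0, hcv, hl, hx, ?_, hcv'⟩
  rw [WeierstrassCurve.Affine.addY, hneg, WeierstrassCurve.Affine.negAddY] at ht
  linear_combination -ht

theorem cyc_struct {A B : ℤ} (hc : Cyc4 (EE A B)) :
    ∃ e s : ℤ, A = s ^ 2 - 3 * e ^ 2 ∧ B = e * (2 * e ^ 2 - s ^ 2) := by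
  obtain ⟨P, hP4, hPσ⟩ := hc
  have hne : P + P ≠ 0 := by
    intro h
    have h1 : (2 : ℕ) • P = 0 := by
      rw [two_nsmul]
      exact h
    have h2 := addOrderOf_dvd_of_nsmul_eq_zero h1
    rw [hP4] at h2
    norm_num at h2
  have h0 : (P + P) + (P + P) = 0 := by
    have h1 : addOrderOf P • P = 0 := addOrderOf_nsmul_eq_zero P
    rw [hP4] at h1
    have h2 : (P + P) + (P + P) = (4 : ℕ) • P := by
      rw [show (4 : ℕ) = 2 + 2 from rfl, add_nsmul, two_nsmul]
    rw [h2]
    exact h1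
  have hxy : ∃ (x y : QB) (h : ((EE A B).baseChange QB).toAffine.Nonsingular x y),
      P = WeierstrassCurve.Affine.Point.some x y h := by
    cases P with
    | zero =>
      exfalso
      exact hne (add_zero (0 : Pt (EE A B) QB))
    | some x y h => exact ⟨x, y, h, rfl⟩
  obtain ⟨x, y, h, rfl⟩ := hxy
  -- `x` is rational
  have hxσ : ∀ σ : QB ≃ₐ[ℚ] QB, σ x = x := by
    intro σ
    have h1 : gact (EE A B) σ (WeierstrassCurve.Affine.Point.some x y h) =
        WeierstrassCurve.Affine.Point.some (σ x) (σ y) _ :=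
      WeierstrassCurve.Affine.Point.map_some σ.toAlgHom h
    rcases hPσ σ with h2 | h2
    · rw [h1] at h2
      exact (WeierstrassCurve.Affine.Point.some.inj h2).1
    · rw [h1, WeierstrassCurve.Affine.Point.neg_some] at h2
      exact (WeierstrassCurve.Affine.Point.some.inj h2).1
  obtain ⟨q, hq⟩ : ∃ q : ℚ, algebraMap ℚ QB q = x := by
    have hgal : IsGalois ℚ QB := Pool.Agent.W262.SH.galQB
    have h1 := (InfiniteGalois.mem_bot_iff_fixed x).mpr hxσ
    exact IntermediateField.mem_bot.mp h1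
  obtain ⟨e, l, hy0, hcv, hl, he, ht, hcv'⟩ := cyc_pt ((EE A B).baseChange QB).toAffine
    (algebraMap ℚ QB A) (algebraMap ℚ QB B) (by simp [EE]) (by simp [EE]) (by simp [EE])
    (by simp [EE]) (by simp [EE]) x y h hne h0
  obtain ⟨h1, h2⟩ := cyc_core _ _ x y e l hy0 hcv hl he ht hcv'
  -- `e` is rational
  have hD : q ^ 3 + A * q + B ≠ 0 := by
    intro hD
    apply hy0
    have h3 : y ^ 2 = 0 := by
      rw [hcv, ← hq, ← map_mul, ← map_pow, ← map_add, ← map_add, hD, map_zero]
    exact pow_eq_zero_iff (two_ne_zero) |>.mp h3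
  obtain ⟨e₀, he₀⟩ : ∃ e₀ : ℚ, algebraMap ℚ QB e₀ = e := by
    refine ⟨((3 * q ^ 2 + A) ^ 2 - 8 * q * (q ^ 3 + A * q + B)) / (4 * (q ^ 3 + A * q + B)), ?_⟩
    have h3 : (4 * (x ^ 3 + algebraMap ℚ QB A * x + algebraMap ℚ QB B)) ≠ 0 := by
      rw [← hcv]
      exact mul_ne_zero (by norm_num) (pow_ne_zero 2 hy0)
    rw [map_div₀, eq_div_iff_mul_eq h3 |>.mpr h2, ← hq]
    simp only [map_sub, map_mul, map_add, map_pow, map_ofNat]
  have hcv₀ : e₀ ^ 3 + A * e₀ + B = 0 := by
    apply (algebraMap ℚ QB).injective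
    rw [map_add, map_add, map_pow, map_mul, map_zero, he₀]
    exact hcv'
  have hs₀ : (q - e₀) ^ 2 = 3 * e₀ ^ 2 + A := by
    apply (algebraMap ℚ QB).injective
    rw [map_add, map_mul, map_pow, map_pow, map_sub, he₀, hq, map_ofNat]
    exact h1
  obtain ⟨e', he'⟩ : ∃ e' : ℤ, (e' : ℚ) = e₀ := by
    have h3 : IsIntegral ℤ e₀ := by
      refine ⟨Polynomial.X ^ 3 + Polynomial.C A * Polynomial.X + Polynomial.C B, ?_, ?_⟩
      · monicity!
      · simp only [Polynomial.eval₂_add, Polynomial.eval₂_mul, Polynomial.eval₂_pow,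
          Polynomial.eval₂_X, Polynomial.eval₂_C]
        exact hcv₀
    obtain ⟨e', he'⟩ := IsIntegrallyClosed.isIntegral_iff.mp h3
    exact ⟨e', he'⟩
  obtain ⟨s', hs'⟩ : ∃ s' : ℤ, (s' : ℚ) = q - e₀ := by
    have h3 : IsIntegral ℤ (q - e₀) := by
      refine ⟨Polynomial.X ^ 2 - Polynomial.C (3 * e' ^ 2 + A), ?_, ?_⟩
      · monicity!
      · simp only [Polynomial.eval₂_sub, Polynomial.eval₂_pow,
          Polynomial.eval₂_X, Polynomial.eval₂_C]
        rw [hs₀, ← he']
        simp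
    obtain ⟨s', hs'⟩ := IsIntegrallyClosed.isIntegral_iff.mp h3
    exact ⟨s', hs'⟩
  rw [← hs', ← he'] at hs₀
  rw [← he'] at hcv₀
  have k1 : s' ^ 2 = 3 * e' ^ 2 + A := by exact_mod_cast hs₀
  have k2 : e' ^ 3 + A * e' + B = 0 := by exact_mod_cast hcv₀
  refine ⟨e', s', by linear_combination -k1, ?_⟩
  linear_combination k2 + e' * k1

end Pool.Agent.H514.FR
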