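import Pool.Agent.H514.FR.Defs2

/-!
Task FR-CYC2 (owner helper514), proved by helper997. The converse: for integers `e`, `s` with
`s ≠ 0` and `9 e² ≠ 4 s²` the curve `y² = x³ + A x + B`, `A = s² - 3 e²`, `B = e (2 e² - s²)` has a
rational cyclic subgroup of order four.
-/

set_option autoImplicit false

open scoped Classical

namespace Pool.Agent.H514.FR

open WeierstrassCurve Pool.Agent.W262.SH

theorem cyc_ns {L : Type} [Field L] {W : WeierstrassCurve.Affine L} {e s w : L}
    (h1 : W.a₁ = 0) (h2 : W.a₂ = 0) (h3 : W.a₃ = 0) (h4 : W.a₄ = s ^ 2 - 3 * e ^ 2)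
    (h6 : W.a₆ = e * (2 * e ^ 2 - s ^ 2)) (hw : w ^ 2 = 3 * e + 2 * s) (hsw : s * w ≠ 0)
    (h20 : (2 : L) ≠ 0) : W.Nonsingular (e + s) (s * w) := by
  rw [Affine.nonsingular_iff, Affine.equation_iff, h1, h2, h3, h4, h6]
  refine ⟨?_, Or.inr ?_⟩
  · linear_combination s ^ 2 * hw
  · intro h
    have h5 : 2 * (s * w) = 0 := by linear_combination h
    rcases mul_eq_zero.1 h5 with h7 | h7
    · exact h20 h7
    · exact hsw h7

theorem cyc_dbl {L : Type} [Field L] {W : WeierstrassCurve.Affine L} {e s w : L}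
    (h1 : W.a₁ = 0) (h2 : W.a₂ = 0) (h3 : W.a₃ = 0) (h4 : W.a₄ = s ^ 2 - 3 * e ^ 2)
    (h6 : W.a₆ = e * (2 * e ^ 2 - s ^ 2)) (hw : w ^ 2 = 3 * e + 2 * s) (hsw : s * w ≠ 0)
    (h20 : (2 : L) ≠ 0) (hP : W.Nonsingular (e + s) (s * w)) :
    ∃ hQ : W.Nonsingular e 0, (Affine.Point.some _ _ hP : W.Point) + Affine.Point.some _ _ hP =
      Affine.Point.some _ _ hQ ∧
      (Affine.Point.some _ _ hQ : W.Point) + Affine.Point.some _ _ hQ = 0 := by
  have hs : s ≠ 0 := left_ne_zero_of_mul hsw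
  have hw0 : w ≠ 0 := right_ne_zero_of_mul hsw
  have hneg : W.negY (e + s) (s * w) = -(s * w) := by
    unfold Affine.negY
    rw [h1, h3]; ring
  have hY : s * w ≠ W.negY (e + s) (s * w) := by
    rw [hneg]
    intro h
    have h5 : 2 * (s * w) = 0 := by linear_combination h
    rcases mul_eq_zero.1 h5 with h7 | h7
    · exact h20 h7
    · exact hsw h7
  have hsl : W.slope (e + s) (e + s) (s * w) (s * w) = w := by
    rw [Affine.slope_of_Y_ne rfl hY, hneg, h1, h2, h4]
    rw [div_eq_iff (by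
      intro h
      have h5 : 2 * (s * w) = 0 := by linear_combination h
      rcases mul_eq_zero.1 h5 with h7 | h7
      · exact h20 h7
      · exact hsw h7)]
    linear_combination (-2 * s) * hw
  have hX' : W.addX (e + s) (e + s) w = e := by
    unfold Affine.addX
    rw [h1, h2]
    linear_combination hw
  have hY' : W.addY (e + s) (e + s) (s * w) w = 0 := by
    unfold Affine.addY Affine.negAddY
    rw [hX']
    unfold Affine.negY
    rw [h1, h3]
    ring
  have hadd := Affine.Point.add_self_of_Y_ne (W := W) (h₁ := hP) hY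
  have hns := Affine.nonsingular_add hP hP (fun hxy => hY hxy.right)
  rw [hsl, hX', hY'] at hns
  refine ⟨hns, ?_, ?_⟩
  · rw [hadd]
    exact Pool.Agent.R432.pt_congr L _ _ (by rw [hsl, hX']) (by rw [hsl, hY'])
  · apply Affine.Point.add_self_of_Y_eq
    unfold Affine.negY
    rw [h1, h3]
    ring

theorem cyc_conv {e s : ℤ} (hs : s ≠ 0) (hd : 9 * e ^ 2 ≠ 4 * s ^ 2) :
    Cyc4 (EE (s ^ 2 - 3 * e ^ 2) (e * (2 * e ^ 2 - s ^ 2))) := by
  obtain ⟨w, hw⟩ := IsAlgClosed.exists_pow_nat_eq (3 * (e : QB) + 2 * (s : QB)) (n := 2) two_pos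
  set W := EE (s ^ 2 - 3 * e ^ 2) (e * (2 * e ^ 2 - s ^ 2)) with hWdef
  have hs' : (s : QB) ≠ 0 := by exact_mod_cast hs
  have hw0 : w ≠ 0 := by
    rintro rfl
    have h1 : (3 * (e : QB) + 2 * (s : QB)) = 0 := by rw [← hw]; ring
    have h2 : 3 * e + 2 * s = 0 := by exact_mod_cast h1
    apply hd
    have h3 : 3 * e = -(2 * s) := by omega
    calc 9 * e ^ 2 = (3 * e) ^ 2 := by ring
      _ = 4 * s ^ 2 := by rw [h3]; ring
  have hsw : (s : QB) * w ≠ 0 := mul_ne_zero hs' hw0
  have h20 : (2 : QB) ≠ 0 := two_ne_zero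
  have a1 : (W.baseChange QB).toAffine.a₁ = 0 := map_zero (algebraMap ℚ QB)
  have a2 : (W.baseChange QB).toAffine.a₂ = 0 := map_zero (algebraMap ℚ QB)
  have a3 : (W.baseChange QB).toAffine.a₃ = 0 := map_zero (algebraMap ℚ QB)
  have a4 : (W.baseChange QB).toAffine.a₄ = (s : QB) ^ 2 - 3 * (e : QB) ^ 2 := by
    show algebraMap ℚ QB ((s ^ 2 - 3 * e ^ 2 : ℤ) : ℚ) = _
    rw [map_intCast]
    push_cast
    ring
  have a6 : (W.baseChange QB).toAffine.a₆ = (e : QB) * (2 * (e : QB) ^ 2 - (s : QB) ^ 2) := by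
    show algebraMap ℚ QB ((e * (2 * e ^ 2 - s ^ 2) : ℤ) : ℚ) = _
    rw [map_intCast]
    push_cast
    ring
  have hP := cyc_ns a1 a2 a3 a4 a6 hw hsw h20
  obtain ⟨hQ, hd1, hd2⟩ := cyc_dbl a1 a2 a3 a4 a6 hw hsw h20 hP
  let P : Pt W QB := Affine.Point.some _ _ hP
  let Q : Pt W QB := Affine.Point.some _ _ hQ
  have e1 : P + P = Q := hd1
  have e2 : Q + Q = 0 := hd2
  refine ⟨P, ?_, ?_⟩
  · have h4 : addOrderOf P = 2 ^ (1 + 1) := by
      apply addOrderOf_eq_prime_pow
      · rw [pow_one, two_nsmul, e1]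
        exact Affine.Point.some_ne_zero _
      · have : (2 ^ (1 + 1) : ℕ) • P = (P + P) + (P + P) := by
          rw [show (2 ^ (1 + 1) : ℕ) = 2 + 2 from rfl, add_nsmul, two_nsmul]
        rw [this, e1, e2]
    rw [h4]
    norm_num
  · intro σ
    have hσ : σ w = w ∨ σ w = -w := by
      have h5 : (σ w) ^ 2 = w ^ 2 := by
        rw [← map_pow, hw, map_add, map_mul, map_mul, map_intCast, map_intCast, map_ofNat,
          map_ofNat]
      exact sq_eq_sq_iff_eq_or_eq_neg.1 h5
    have hact : gact W σ P = (Affine.Point.some _ _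
        ((Affine.baseChange_nonsingular W σ.toAlgHom.injective ..).mpr hP) : Pt W QB) := rfl
    have hx : σ.toAlgHom ((e : QB) + (s : QB)) = (e : QB) + (s : QB) := by
      rw [map_add, map_intCast, map_intCast]
    rcases hσ with h | h
    · left
      rw [hact]
      refine Pool.Agent.R432.pt_congr QB _ _ hx ?_
      rw [map_mul, map_intCast]
      show (s : QB) * σ w = _
      rw [h]
    · right
      rw [hact]
      show _ = -(Affine.Point.some _ _ hP : (W.baseChange QB).toAffine.Point)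
      rw [Affine.Point.neg_some]
      refine Pool.Agent.R432.pt_congr QB _ _ hx ?_
      rw [map_mul, map_intCast]
      show (s : QB) * σ w = _
      unfold Affine.negY
      rw [h, a1, a3]
      ring

end Pool.Agent.H514.FR
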