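import Pool.Agent.H514.IS.Tu4
import Pool.Graph.R_seed8.R432.Iso

/-!
# Project FR: the 4-rank of the Tate-Shafarevich groups of the curves with a cyclic 4-isogeny:
natural homomorphisms and the maps on `Ш`
-/

set_option autoImplicit false

open scoped Classical

namespace Pool.Agent.H514.FR

open WeierstrassCurve Pool.Agent.W262.SH

/-- a natural family of homomorphisms between the groups of points of two curves over `ℚ` -/
structure NQ (W W' : WeierstrassCurve ℚ) where
  f : ∀ (L : Type) [Field L] [Algebra ℚ L], Pt W L →+ Pt W' L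
  nat : ∀ {L L' : Type} [Field L] [Algebra ℚ L] [Field L'] [Algebra ℚ L'] (φ : L →ₐ[ℚ] L')
    (P : Pt W L), act W' φ (f L P) = f L' (act W φ P)

variable {W W' : WeierstrassCurve ℚ}

/-- the map on the cochains -/
noncomputable def cMap (h : NQ W W') : (GQ → Pt W QB) →+ (GQ → Pt W' QB) where
  toFun c := fun σ => h.f QB (c σ)
  map_zero' := by
    funext σ
    exact map_zero _
  map_add' c d := by
    funext σ
    exact map_add _ _ _

lemma cMap_apply (h : NQ W W') (c : GQ → Pt W QB) (σ : GQ) : cMap h c σ = h.f QB (c σ) := rfl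

lemma cMap_loc (h : NQ W W') {K : Type} [Field K] [Algebra ℚ K] {c : GQ → Pt W QB}
    (hc : LocT W K c) : LocT W' K (cMap h c) := by
  intro ι
  obtain ⟨P, hP⟩ := hc ι
  refine ⟨h.f _ P, fun τ σ hτ => ?_⟩
  rw [cMap_apply, h.nat, hP τ σ hτ, map_sub, h.nat]

lemma cMap_isS (h : NQ W W') {c : GQ → Pt W QB} (hc : IsS W c) : IsS W' (cMap h c) := by
  obtain ⟨⟨h1, h2⟩, h3, h4⟩ := hc
  refine ⟨⟨h1.comp (h.f QB), fun σ τ => ?_⟩, fun p _ => cMap_loc h (h3 p), cMap_loc h h4⟩
  rw [cMap_apply, cMap_apply, cMap_apply, h2, map_add]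
  congr 1
  exact (h.nat _ _).symm

lemma cMap_b1 (h : NQ W W') {c : GQ → Pt W QB} (hc : c ∈ B1 (gact W)) :
    cMap h c ∈ B1 (gact W') := by
  obtain ⟨P, hP⟩ := hc
  refine ⟨h.f QB P, fun σ => ?_⟩
  rw [cMap_apply, hP, map_sub]
  congr 1
  exact (h.nat _ _).symm

/-- the map on the cocycles -/
noncomputable def zMap (h : NQ W W') : ZS W →+ ZS W' :=
  ((cMap h).comp (ZS W).subtype).codRestrict (ZS W') (fun c => cMap_isS h c.2)

/-- the map on the Tate-Shafarevich groups -/
noncomputable def sMap (h : NQ W W') : ShaQ W →+ ShaQ W' :=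
  QuotientAddGroup.map _ _ (zMap h) (fun c hc => cMap_b1 h hc)

lemma sMap_mk (h : NQ W W') (c : ZS W) :
    sMap h (QuotientAddGroup.mk c) = QuotientAddGroup.mk (zMap h c) := rfl

/-- if the composition is the doubling, so it is on `Ш` -/
theorem sMap_dbl (h : NQ W W') (h' : NQ W' W)
    (hd : ∀ P : Pt W QB, h'.f QB (h.f QB P) = P + P) (x : ShaQ W) :
    sMap h' (sMap h x) = x + x := by
  induction x using QuotientAddGroup.induction_on with
  | H c =>
    rw [sMap_mk, sMap_mk, ← QuotientAddGroup.mk_add]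
    congr 1
    apply Subtype.ext
    funext σ
    exact hd _

/-- if the composition is the identity, so it is on `Ш` -/
theorem sMap_id (h : NQ W W') (h' : NQ W' W)
    (hd : ∀ P : Pt W QB, h'.f QB (h.f QB P) = P) (x : ShaQ W) :
    sMap h' (sMap h x) = x := by
  induction x using QuotientAddGroup.induction_on with
  | H c =>
    rw [sMap_mk, sMap_mk]
    congr 1
    apply Subtype.ext
    funext σ
    exact hd _

end Pool.Agent.H514.FR
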