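import Pool.Agent.H514.FR.Defs

/-!
# Project FR: the curves with a cyclic 4-isogeny, definitions
-/

set_option autoImplicit false

namespace Pool.Agent.H514.FR

open Finset Pool.Agent.W262.SH

/-- the curve `y² = x³ + A x + B` -/
def EE (A B : ℤ) : WeierstrassCurve ℚ := ⟨0, 0, 0, (A : ℚ), (B : ℚ)⟩

/-- there is a point `P` of order four over `ℚ̄` such that the subgroup generated by `P` is stable
under `Gal(ℚ̄/ℚ)` -/
def Cyc4 (W : WeierstrassCurve ℚ) : Prop :=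
  ∃ P : Pt W QB, addOrderOf P = 4 ∧ ∀ σ : GQ, gact W σ P = P ∨ gact W σ P = -P

open Classical in
/-- the curves of height at most `H` with a rational cyclic subgroup of order four -/
noncomputable def X4 (H : ℕ) : Finset (ℤ × ℤ) :=
  ((Icc (-(H : ℤ)) H) ×ˢ (Icc (-(H : ℤ)) H)).filter (fun c : ℤ × ℤ =>
    4 * c.1 ^ 3 + 27 * c.2 ^ 2 ≠ 0 ∧ 4 * |c.1| ^ 3 ≤ H ∧ 27 * c.2 ^ 2 ≤ H ∧
    (∀ p : ℕ, p.Prime → ¬ ((p : ℤ) ^ 4 ∣ c.1 ∧ (p : ℤ) ^ 6 ∣ c.2)) ∧ Cyc4 (EE c.1 c.2))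

end Pool.Agent.H514.FR
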