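import Pool.Agent.H514.FR.Four
import Pool.Agent.H514.IS.Tu4

/-! Project FR: the curves ordered by height. -/

set_option autoImplicit false

open scoped Classical

namespace Pool.Agent.H514.FR

open Finset Filter Pool.Agent.W307.RT Pool.Agent.W262.SH Pool.Agent.H514

open Pool.Agent.H514.IS (D Nd lg box_turan)

/-- the structure of the curves -/
def STR : Prop := ∀ A B : ℤ, Cyc4 (EE A B) →
  ∃ e s : ℤ, A = s ^ 2 - 3 * e ^ 2 ∧ B = e * (2 * e ^ 2 - s ^ 2)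

/-- the number of the curves -/
def LOW4 : Prop := ∃ (c : ℝ) (C1 T1 : ℕ), 0 < c ∧ ∀ T H : ℕ, T1 ≤ T → C1 * T ^ 6 ≤ H →
  c * (T : ℝ) ^ 2 ≤ ((X4 H).card : ℝ)

lemma size_aux {e s H : ℤ} (h1 : 4 * |s ^ 2 - 3 * e ^ 2| ^ 3 ≤ H)
    (h2 : 27 * (e * (2 * e ^ 2 - s ^ 2)) ^ 2 ≤ H) :
    (3 * e + 2 * s) ^ 6 ≤ 1000000 * H := by
  obtain ⟨a, ha⟩ : ∃ a : ℤ, a = s ^ 2 := ⟨_, rfl⟩
  obtain ⟨b, hb⟩ : ∃ b : ℤ, b = e ^ 2 := ⟨_, rfl⟩
  have ha0 : 0 ≤ a := ha ▸ sq_nonneg s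
  have hb0 : 0 ≤ b := hb ▸ sq_nonneg e
  have hB : (e * (2 * e ^ 2 - s ^ 2)) ^ 2 = b * (2 * b - a) ^ 2 := by rw [ha, hb]; ring
  rw [hB] at h2
  rw [← ha, ← hb] at h1
  obtain ⟨X, hX⟩ : ∃ X : ℤ, X = |a - 3 * b| := ⟨_, rfl⟩
  rw [← hX] at h1
  have hX0 : 0 ≤ X := hX ▸ abs_nonneg _
  have hX3 : 0 ≤ X ^ 3 := by positivity
  have hBn : 0 ≤ b * (2 * b - a) ^ 2 := mul_nonneg hb0 (sq_nonneg _)
  have hH0 : 0 ≤ H := by linarith
  have hXa : a ≤ X + 3 * b := by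
    have := le_abs_self (a - 3 * b)
    linarith
  have hXb : 3 * b - a ≤ X := by
    have := neg_abs_le (a - 3 * b)
    linarith
  have hb3 : b ^ 3 ≤ 8 * X ^ 3 + 4 * (b * (2 * b - a) ^ 2) := by
    rcases le_or_gt b (2 * X) with h | h
    · have h3 : b ^ 3 ≤ (2 * X) ^ 3 := pow_le_pow_left₀ hb0 h 3
      have h4 : (2 * X) ^ 3 = 8 * X ^ 3 := by ring
      linarith
    · have h3 : b ≤ 2 * (a - 2 * b) := by linarith
      have h4 : b ^ 2 ≤ (2 * (a - 2 * b)) ^ 2 := pow_le_pow_left₀ hb0 h3 2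
      have h5 : b * b ^ 2 ≤ b * (2 * (a - 2 * b)) ^ 2 := mul_le_mul_of_nonneg_left h4 hb0
      have h6 : b * (2 * (a - 2 * b)) ^ 2 = 4 * (b * (2 * b - a) ^ 2) := by ring
      have h7 : b * b ^ 2 = b ^ 3 := by ring
      linarith
  have hb3' : b ^ 3 ≤ 3 * H := by linarith
  have ha3 : a ^ 3 ≤ 4 * (X ^ 3 + 27 * b ^ 3) := by
    have h3 : a ^ 3 ≤ (X + 3 * b) ^ 3 := pow_le_pow_left₀ ha0 hXa 3
    have h4 : 4 * (X ^ 3 + 27 * b ^ 3) - (X + 3 * b) ^ 3 = 3 * (X + 3 * b) * (X - 3 * b) ^ 2 := by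
      ring
    have h5 : 0 ≤ 3 * (X + 3 * b) * (X - 3 * b) ^ 2 := by positivity
    linarith
  have ha3' : a ^ 3 ≤ 325 * H := by linarith
  have h7 : (3 * e + 2 * s) ^ 2 ≤ 2 * (9 * b + 4 * a) := by
    rw [ha, hb]
    nlinarith [sq_nonneg (3 * e - 2 * s)]
  have h8 : ((3 * e + 2 * s) ^ 2) ^ 3 ≤ (2 * (9 * b + 4 * a)) ^ 3 :=
    pow_le_pow_left₀ (sq_nonneg _) h7 3
  have h9 : 32 * (729 * b ^ 3 + 64 * a ^ 3) - (2 * (9 * b + 4 * a)) ^ 3 =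
      24 * (9 * b + 4 * a) * (9 * b - 4 * a) ^ 2 := by ring
  have h10 : 0 ≤ 24 * (9 * b + 4 * a) * (9 * b - 4 * a) ^ 2 := by positivity
  have h11 : (3 * e + 2 * s) ^ 6 = ((3 * e + 2 * s) ^ 2) ^ 3 := by ring
  rw [h11]
  linarith

lemma size_le {e s : ℤ} {H : ℕ} (h1 : 4 * |s ^ 2 - 3 * e ^ 2| ^ 3 ≤ (H : ℤ))
    (h2 : 27 * (e * (2 * e ^ 2 - s ^ 2)) ^ 2 ≤ (H : ℤ)) :
    (3 * e + 2 * s).natAbs ^ 6 ≤ 1000000 * H ∧ (3 * e - 2 * s).natAbs ^ 6 ≤ 1000000 * H := by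
  have key : ∀ s : ℤ, 4 * |s ^ 2 - 3 * e ^ 2| ^ 3 ≤ (H : ℤ) →
      27 * (e * (2 * e ^ 2 - s ^ 2)) ^ 2 ≤ (H : ℤ) → (3 * e + 2 * s).natAbs ^ 6 ≤ 1000000 * H := by
    intro s h1 h2
    have h3 := size_aux h1 h2
    have h4 : (((3 * e + 2 * s).natAbs : ℕ) : ℤ) ^ 6 = (3 * e + 2 * s) ^ 6 := by
      rw [Int.natCast_natAbs]
      have : (6 : ℕ) = 2 * 3 := rfl
      rw [this, pow_mul, pow_mul, sq_abs]
    rw [← h4] at h3
    exact_mod_cast h3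
  refine ⟨key s h1 h2, ?_⟩
  have := key (-s) (by rw [neg_sq]; exact h1) (by rw [neg_sq]; exact h2)
  have h5 : 3 * e + 2 * -s = 3 * e - 2 * s := by ring
  rwa [h5] at this

/-- the parametrisation -/
lemma par (hstr : STR) {H : ℕ} {c : ℤ × ℤ} (hc : c ∈ X4 H) : ∃ t : ℤ × ℤ,
    c.1 = t.2 ^ 2 - 3 * t.1 ^ 2 ∧ c.2 = t.1 * (2 * t.1 ^ 2 - t.2 ^ 2) ∧ t.2 ≠ 0 ∧
    9 * t.1 ^ 2 ≠ 4 * t.2 ^ 2 ∧ (3 * t.1 + 2 * t.2).natAbs ^ 6 ≤ 1000000 * H ∧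
    (3 * t.1 - 2 * t.2).natAbs ^ 6 ≤ 1000000 * H := by
  simp only [X4, mem_filter] at hc
  obtain ⟨-, h1, h2, h3, -, h4⟩ := hc
  obtain ⟨e, s, hA, hB⟩ := hstr _ _ h4
  rw [hA, hB] at h1
  rw [hA] at h2
  rw [hB] at h3
  have hdisc : 4 * (s ^ 2 - 3 * e ^ 2) ^ 3 + 27 * (e * (2 * e ^ 2 - s ^ 2)) ^ 2 =
      s ^ 4 * (4 * s ^ 2 - 9 * e ^ 2) := by ring
  rw [hdisc] at h1
  refine ⟨(e, s), hA, hB, ?_, ?_, (size_le h2 h3).1, (size_le h2 h3).2⟩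
  · rintro rfl
    simp at h1
  · intro h
    apply h1
    have : 4 * s ^ 2 - 9 * e ^ 2 = 0 := by
      have h' : 9 * e ^ 2 = 4 * s ^ 2 := h
      linarith
    rw [this, mul_zero]

/-- the pair of the curve with full 2-torsion -/
def pr (t : ℤ × ℤ) : ℤ × ℤ := (3 * t.1 + 2 * t.2, 3 * t.1 - 2 * t.2)

theorem transfer (hstr : STR) (hlow : LOW4) (T2 : ℕ) : ∃ (K : ℝ) (H0 : ℕ), 0 ≤ K ∧
    ∀ H : ℕ, H0 ≤ H → ∃ T : ℕ, T2 ≤ T ∧ 100 ≤ T ∧ T ≤ H ∧ H ≤ T ^ 12 ∧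
      (T : ℝ) ^ 2 ≤ K * (X4 H).card ∧ ∃ G : ℤ × ℤ → ℤ × ℤ,
      (∀ c ∈ X4 H, c.1 = (G c).2 ^ 2 - 3 * (G c).1 ^ 2 ∧
        c.2 = (G c).1 * (2 * (G c).1 ^ 2 - (G c).2 ^ 2) ∧ (G c).2 ≠ 0 ∧
        9 * (G c).1 ^ 2 ≠ 4 * (G c).2 ^ 2) ∧
      ∀ g : ℤ × ℤ → ℝ, (∀ t, 0 ≤ g t) →
        ∑ c ∈ X4 H, g (pr (G c)) ≤ ∑ t ∈ (Box T).filter Nd, g t := by
  obtain ⟨c0, C1, T1, hc0, hlow⟩ := hlow
  set Dn : ℕ := 1000000 * C1 + 1 with hDn
  have hD1 : 1 ≤ Dn := by omega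
  set Tm : ℕ := max (max (Dn * (T1 + 1)) T2) 100 with hTm
  refine ⟨4 * (Dn : ℝ) ^ 2 / c0, Tm ^ 6, by positivity, fun H hH => ?_⟩
  set T : ℕ := Nat.findGreatest (fun t => t ^ 6 ≤ 1000000 * H) (1000000 * H) with hT
  have hle : ∀ x : ℕ, x ^ 6 ≤ 1000000 * H → x ≤ T := fun x hx =>
    Nat.le_findGreatest ((Nat.le_self_pow (by omega) x).trans hx) hx
  have hTk : T ^ 6 ≤ 1000000 * H :=
    Nat.findGreatest_spec (P := fun t => t ^ 6 ≤ 1000000 * H)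
      (Nat.zero_le _) (by rw [zero_pow (by omega)]; exact Nat.zero_le _)
  have hTs : 1000000 * H < (T + 1) ^ 6 := by
    by_contra h
    rw [not_lt] at h
    have := hle (T + 1) h
    omega
  have hTmT : Tm ≤ T := hle _ (hH.trans (by omega))
  have hTD : Dn * (T1 + 1) ≤ T := ((le_max_left _ _).trans (le_max_left _ _)).trans hTmT
  have hTT2 : T2 ≤ T := ((le_max_right _ _).trans (le_max_left _ _)).trans hTmT
  have hT100 : 100 ≤ T := (le_max_right _ _).trans hTmT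
  -- the number of the curves
  set T' := T / Dn with hT'
  have hT'0 : T1 + 1 ≤ T' := by
    rw [hT', Nat.le_div_iff_mul_le hD1, mul_comm]
    exact hTD
  have h2 : T' * Dn ≤ T := Nat.div_mul_le_self T Dn
  have h3 : C1 * T' ^ 6 ≤ H := by
    have a1 : (T' * Dn) ^ 6 ≤ 1000000 * H := (Nat.pow_le_pow_left h2 6).trans hTk
    rw [mul_pow] at a1
    have a2 : Dn ≤ Dn ^ 6 := Nat.le_self_pow (by omega) Dn
    have a3 : T' ^ 6 * (1000000 * C1) ≤ 1000000 * H :=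
      (Nat.mul_le_mul_left _ (by omega : 1000000 * C1 ≤ Dn ^ 6)).trans a1
    have a4 : 1000000 * (C1 * T' ^ 6) ≤ 1000000 * H := by
      calc 1000000 * (C1 * T' ^ 6) = T' ^ 6 * (1000000 * C1) := by ring
        _ ≤ _ := a3
    omega
  have h4 := hlow T' H (by omega) h3
  have h5 : T ≤ 2 * Dn * T' := by
    have a1 : T < Dn * (T' + 1) := by
      rw [mul_comm]
      exact Nat.lt_mul_of_div_lt (by rw [← hT']; omega) hD1
    have a2 : Dn * (T' + 1) ≤ 2 * Dn * T' := by nlinarith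
    omega
  have h6 : (T : ℝ) ≤ 2 * Dn * T' := by exact_mod_cast h5
  have h7 : (T : ℝ) ^ 2 ≤ 4 * (Dn : ℝ) ^ 2 / c0 * (X4 H).card := by
    calc (T : ℝ) ^ 2 ≤ (2 * Dn * T') ^ 2 := pow_le_pow_left₀ (Nat.cast_nonneg T) h6 2
      _ = 4 * (Dn : ℝ) ^ 2 / c0 * (c0 * (T' : ℝ) ^ 2) := by
        field_simp
        ring
      _ ≤ _ := mul_le_mul_of_nonneg_left h4 (by positivity)
  have hTH : T ≤ H := by
    have a1 : T * 100 ^ 5 ≤ T * T ^ 5 := Nat.mul_le_mul_left _ (Nat.pow_le_pow_left hT100 5)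
    have a2 : T * T ^ 5 = T ^ 6 := by ring
    rw [a2] at a1
    omega
  have hHT : H ≤ T ^ 12 := by
    have a3 : T + 1 ≤ T ^ 2 := by nlinarith
    calc H ≤ 1000000 * H := by omega
      _ ≤ (T + 1) ^ 6 := hTs.le
      _ ≤ (T ^ 2) ^ 6 := Nat.pow_le_pow_left a3 6
      _ = T ^ 12 := by ring
  have hchoose : ∀ c ∈ X4 H, ∃ t : ℤ × ℤ,
      c.1 = t.2 ^ 2 - 3 * t.1 ^ 2 ∧ c.2 = t.1 * (2 * t.1 ^ 2 - t.2 ^ 2) ∧ t.2 ≠ 0 ∧
      9 * t.1 ^ 2 ≠ 4 * t.2 ^ 2 ∧ (3 * t.1 + 2 * t.2).natAbs ^ 6 ≤ 1000000 * H ∧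
      (3 * t.1 - 2 * t.2).natAbs ^ 6 ≤ 1000000 * H := fun c hc => par hstr hc
  choose! G hG1 hG2 hG3 hG4 hG5 hG6 using hchoose
  refine ⟨T, hTT2, hT100, hTH, hHT, h7, G, fun c hc => ⟨hG1 c hc, hG2 c hc, hG3 c hc, hG4 c hc⟩,
    fun g hg => ?_⟩
  have hinj : Set.InjOn (fun c => pr (G c)) (X4 H : Set (ℤ × ℤ)) := by
    intro c hc c' hc' h
    have h' : pr (G c) = pr (G c') := h
    unfold pr at h'
    rw [Prod.mk.injEq] at h'
    have e1 : (G c).1 = (G c').1 := by linarith [h'.1, h'.2]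
    have e2 : (G c).2 = (G c').2 := by linarith [h'.1, h'.2]
    apply Prod.ext
    · rw [hG1 c hc, hG1 c' hc', e1, e2]
    · rw [hG2 c hc, hG2 c' hc', e1, e2]
  calc ∑ c ∈ X4 H, g (pr (G c)) = ∑ t ∈ (X4 H).image (fun c => pr (G c)), g t := by
        rw [sum_image hinj]
    _ ≤ _ := by
      apply sum_le_sum_of_subset_of_nonneg
      · intro t ht
        obtain ⟨c, hc, rfl⟩ := mem_image.1 ht
        rw [mem_filter, mem_Box]
        exact ⟨⟨hle _ (hG5 c hc), hle _ (hG6 c hc)⟩, ab_ne (hG3 c hc) (hG4 c hc)⟩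
      · intro t _ _
        exact hg t

/-- the second moment of `2 ^ rank` times the order of `2 Ш[4]` -/
theorem four_moment (hstr : STR) (hlow : LOW4) : ∃ C : ℝ, ∀ H : ℕ,
    ∑ c ∈ X4 H, ((2 : ℝ) ^ Module.finrank ℤ (EE c.1 c.2).toAffine.Point *
      (Fr (ShaQ (EE c.1 c.2))).ncard) ^ 2 ≤ C * (X4 H).card := by
  obtain ⟨C1, hC10, hC1⟩ := box_q rbd_sel 2 le_rfl
  obtain ⟨K, H0, hK0, hK⟩ := transfer hstr hlow 1
  set F : ℤ × ℤ → ℝ := fun c => ((2 : ℝ) ^ Module.finrank ℤ (EE c.1 c.2).toAffine.Point *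
      (Fr (ShaQ (EE c.1 c.2))).ncard) ^ 2 with hF
  have hF0 : ∀ c, 0 ≤ F c := fun c => sq_nonneg _
  refine ⟨C1 * K + ∑ c ∈ X4 H0, F c, fun H => ?_⟩
  have hs0 : 0 ≤ ∑ c ∈ X4 H0, F c := sum_nonneg fun c _ => hF0 c
  rcases le_or_gt H0 H with hH | hH
  · obtain ⟨T, -, hT100, -, -, hT, G, hG, hsum⟩ := hK H hH
    have h1 : ∑ c ∈ X4 H, F c ≤ ∑ c ∈ X4 H, ((QS (pr (G c)).1 (pr (G c)).2 : ℕ) : ℝ) ^ 2 := by
      apply sum_le_sum
      intro c hc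
      obtain ⟨g1, g2, g3, g4⟩ := hG c hc
      have h2 := (four_le g1 g2 g3 g4).2
      have h3 : (2 : ℝ) ^ Module.finrank ℤ (EE c.1 c.2).toAffine.Point *
          (Fr (ShaQ (EE c.1 c.2))).ncard ≤ ((QS (pr (G c)).1 (pr (G c)).2 : ℕ) : ℝ) := by
        exact_mod_cast h2
      exact pow_le_pow_left₀ (by positivity) h3 2
    have h4 := hsum (fun t => ((QS t.1 t.2 : ℕ) : ℝ) ^ 2) (fun t => sq_nonneg _)
    have h5 := hC1 T (by omega)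
    have h6 : LgK 2 (3 * T) = 1 := by
      unfold LgK th
      norm_num
    have h7 : (Box T).filter Nd =
        (Box T).filter (fun t : ℤ × ℤ => t.1 ≠ 0 ∧ t.2 ≠ 0 ∧ t.1 ≠ t.2) := by
      ext t
      simp only [mem_filter]
      rfl
    rw [h6, mul_one, ← h7] at h5
    calc ∑ c ∈ X4 H, F c ≤ C1 * (T : ℝ) ^ 2 := h1.trans (h4.trans h5)
      _ ≤ C1 * (K * (X4 H).card) := mul_le_mul_of_nonneg_left hT hC10
      _ ≤ _ := by
        have : 0 ≤ (∑ c ∈ X4 H0, F c) * ((X4 H).card : ℝ) := mul_nonneg hs0 (Nat.cast_nonneg _)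
        linarith
  · rcases (X4 H).eq_empty_or_nonempty with he | hne
    · rw [he]
      simp
    · have hsub : X4 H ⊆ X4 H0 := by
        intro c hc
        unfold X4 at hc ⊢
        simp only [mem_filter, mem_product, mem_Icc] at hc ⊢
        have hHH : (H : ℤ) ≤ H0 := by exact_mod_cast hH.le
        obtain ⟨⟨⟨a1, a2⟩, a3, a4⟩, b1, b2, b3, b4, b5⟩ := hc
        exact ⟨⟨⟨by linarith, by linarith⟩, by linarith, by linarith⟩, b1, b2.trans hHH,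
          b3.trans hHH, b4, b5⟩
      have h1 : ∑ c ∈ X4 H, F c ≤ ∑ c ∈ X4 H0, F c :=
        sum_le_sum_of_subset_of_nonneg hsub fun c _ _ => hF0 c
      have h2 : (1 : ℝ) ≤ (X4 H).card := by exact_mod_cast hne.card_pos
      calc ∑ c ∈ X4 H, F c ≤ (∑ c ∈ X4 H0, F c) * 1 := by rw [mul_one]; exact h1
        _ ≤ (∑ c ∈ X4 H0, F c) * (X4 H).card := mul_le_mul_of_nonneg_left h2 hs0
        _ ≤ _ := by
          have : 0 ≤ C1 * K * ((X4 H).card : ℝ) := by positivity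
          linarith

/-- the second moment of the distance from the normal order -/
theorem two_turan (hstr : STR) (hlow : LOW4) : ∃ (C : ℝ) (H0 : ℕ), ∀ H : ℕ, H0 ≤ H →
    ∑ c ∈ X4 H, (Real.logb 2 (Nat.card (Sha2 (EE c.1 c.2))) -
      3 / 2 * Real.log (Real.log H)) ^ 2 ≤ C * Real.log (Real.log H) * (X4 H).card := by
  obtain ⟨C, hC0, T2, hT2⟩ := box_turan
  obtain ⟨K, H0, hK0, hK⟩ := transfer hstr hlow T2
  refine ⟨2 * (C * K) + 81 / 2, H0, fun H hH => ?_⟩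
  obtain ⟨T, hTT2, hT100, hTH, hHT, hT, G, hG, hsum⟩ := hK H hH
  obtain ⟨hL1, hbox⟩ := hT2 T hTT2
  have hT100r : (100 : ℝ) ≤ T := by exact_mod_cast hT100
  have hTHr : (T : ℝ) ≤ H := by exact_mod_cast hTH
  have hlogT : 0 < Real.log T := Real.log_pos (by linarith)
  have hLH : Real.log (Real.log H) ≤ 3 + Real.log (Real.log T) := by
    have a1 : (H : ℝ) ≤ (T : ℝ) ^ 12 := by exact_mod_cast hHT
    have a4 : Real.log H ≤ 12 * Real.log T := by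
      have := Real.log_le_log (by linarith) a1
      rw [Real.log_pow] at this
      exact_mod_cast this
    have a5 : 0 < Real.log H := Real.log_pos (by linarith)
    have a6 := Real.log_le_log a5 a4
    rw [Real.log_mul (by norm_num) hlogT.ne'] at a6
    have a7 : Real.log 12 ≤ 3 := by
      rw [Real.log_le_iff_le_exp (by norm_num)]
      have b1 := Real.exp_one_gt_d9
      have b2 : (2.7182818283 : ℝ) ^ 3 ≤ (Real.exp 1) ^ 3 :=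
        pow_le_pow_left₀ (by norm_num) b1.le 3
      rw [← Real.exp_nat_mul] at b2
      norm_num at b2
      linarith
    linarith
  have hTL : Real.log (Real.log T) ≤ Real.log (Real.log H) :=
    Real.log_le_log hlogT (Real.log_le_log (by linarith) hTHr)
  set LH := Real.log (Real.log H) with hLHd
  set LT := Real.log (Real.log T) with hLTd
  set x : ℤ × ℤ → ℝ := fun c => Real.logb 2 (Nat.card (Sha2 (EE c.1 c.2))) with hx
  have hsum' : ∑ c ∈ X4 H, (x c - 3 / 2 * LT) ^ 2 ≤ C * LT * (T : ℝ) ^ 2 := by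
    have h1 := hsum (fun t => (lg (D (2 * (t.1 + t.2)) ((t.1 - t.2) ^ 2)) - 3 / 2 * LT) ^ 2)
      (fun t => sq_nonneg _)
    refine le_trans (le_of_eq ?_) (h1.trans hbox)
    apply sum_congr rfl
    intro c hc
    obtain ⟨g1, g2, g3, g4⟩ := hG c hc
    obtain ⟨f⟩ := two_eq g1 g2
    have h2 : x c = lg (D (2 * ((pr (G c)).1 + (pr (G c)).2))
        (((pr (G c)).1 - (pr (G c)).2) ^ 2)) := by
      rw [hx]
      unfold lg
      simp only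
      rw [← Nat.card_congr f]
      rfl
    rw [h2]
  have hpt : ∀ c ∈ X4 H, (x c - 3 / 2 * LH) ^ 2 ≤ 2 * (x c - 3 / 2 * LT) ^ 2 + 81 / 2 := by
    intro c _
    have a1 : (x c - 3 / 2 * LH) ^ 2 ≤ 2 * (x c - 3 / 2 * LT) ^ 2 + 2 * (3 / 2 * (LH - LT)) ^ 2 := by
      nlinarith [sq_nonneg ((x c - 3 / 2 * LT) + (3 / 2 * (LH - LT)))]
    have a2 : (LH - LT) ^ 2 ≤ 9 := by nlinarith
    nlinarith
  refine (sum_le_sum hpt).trans ?_
  rw [sum_add_distrib, ← mul_sum, sum_const, nsmul_eq_mul]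
  have hN0 : (0 : ℝ) ≤ (X4 H).card := Nat.cast_nonneg _
  have k1 : C * LT * (T : ℝ) ^ 2 ≤ C * LH * (K * (X4 H).card) := by
    apply mul_le_mul _ hT (by positivity) (by nlinarith)
    exact mul_le_mul_of_nonneg_left hTL hC0
  have k2 : ((X4 H).card : ℝ) * (81 / 2) ≤ 81 / 2 * LH * (X4 H).card := by nlinarith
  calc 2 * ∑ c ∈ X4 H, (x c - 3 / 2 * LT) ^ 2 + (X4 H).card * (81 / 2) ≤
      2 * (C * LH * (K * (X4 H).card)) + 81 / 2 * LH * (X4 H).card := by linarith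
    _ = _ := by ring

end Pool.Agent.H514.FR
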