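import Pool.Agent.H514.FR.Defs2
import Pool.Agent.H514.LowTwo

/-!
# There are many curves with a cyclic 4-isogeny (task FR-LOW, helper161)
-/

set_option autoImplicit false

namespace Pool.Agent.H514.FR

open Finset Pool.Agent.W307.RT Pool.Agent.W262.SH

/-- the curve with `e = b`, `s = a + b` -/
def c4 (t : ℕ × ℕ) : ℤ × ℤ :=
  (((t.1 : ℤ) + t.2) ^ 2 - 3 * (t.2 : ℤ) ^ 2,
    (t.2 : ℤ) * (2 * (t.2 : ℤ) ^ 2 - ((t.1 : ℤ) + t.2) ^ 2))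

theorem mem_x4 (hconv : ∀ e s : ℤ, s ≠ 0 → 9 * e ^ 2 ≠ 4 * s ^ 2 →
      Cyc4 (EE (s ^ 2 - 3 * e ^ 2) (e * (2 * e ^ 2 - s ^ 2))))
    {T H a b : ℕ} (hb : 1 ≤ b) (hab : b < a) (haT : a ≤ T) (hc : a.Coprime b)
    (hH : 432 * T ^ 6 ≤ H) : c4 (a, b) ∈ X4 H := by
  have hcI : IsCoprime (a : ℤ) (b : ℤ) := Nat.isCoprime_iff_coprime.2 hc
  have hbI : (1 : ℤ) ≤ b := by exact_mod_cast hb
  have habI : (b : ℤ) < a := by exact_mod_cast hab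
  have haTI : (a : ℤ) ≤ T := by exact_mod_cast haT
  have hHI : 432 * (T : ℤ) ^ 6 ≤ H := by exact_mod_cast hH
  have hcy := hconv (b : ℤ) ((a : ℤ) + b)
  set e : ℤ := (b : ℤ) with he
  set s : ℤ := (a : ℤ) + b with hs
  have hT1 : (1 : ℤ) ≤ T := by linarith
  have hes : 2 * e < s := by rw [hs]; linarith
  have hsT : s ≤ 2 * T := by rw [hs]; linarith
  have heT : e ≤ T := by linarith
  have e1 : (c4 (a, b)).1 = s ^ 2 - 3 * e ^ 2 := rfl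
  have e2 : (c4 (a, b)).2 = e * (2 * e ^ 2 - s ^ 2) := rfl
  have hs2 : s ^ 2 ≤ (2 * (T : ℤ)) ^ 2 := pow_le_pow_left₀ (by linarith) hsT 2
  have hes2 : (2 * e) ^ 2 < s ^ 2 := pow_lt_pow_left₀ hes (by linarith) two_ne_zero
  have he2 : 0 < e ^ 2 := by positivity
  have hA0 : 0 ≤ s ^ 2 - 3 * e ^ 2 := by nlinarith
  have hA : s ^ 2 - 3 * e ^ 2 ≤ 4 * (T : ℤ) ^ 2 := by nlinarith
  have hC0 : 0 ≤ s ^ 2 - 2 * e ^ 2 := by nlinarith
  have hC : s ^ 2 - 2 * e ^ 2 ≤ 4 * (T : ℤ) ^ 2 := by nlinarith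
  have hB0 : 0 ≤ e * (s ^ 2 - 2 * e ^ 2) := mul_nonneg (by linarith) hC0
  have hB : e * (s ^ 2 - 2 * e ^ 2) ≤ 4 * (T : ℤ) ^ 3 := by
    calc e * (s ^ 2 - 2 * e ^ 2) ≤ (T : ℤ) * (4 * (T : ℤ) ^ 2) := by
          apply mul_le_mul heT hC hC0 (by linarith)
      _ = 4 * (T : ℤ) ^ 3 := by ring
  have hT6 : (0 : ℤ) ≤ (T : ℤ) ^ 6 := by positivity
  have hc1 : 4 * |(c4 (a, b)).1| ^ 3 ≤ H := by
    rw [e1, abs_of_nonneg hA0]
    have h1 : (s ^ 2 - 3 * e ^ 2) ^ 3 ≤ (4 * (T : ℤ) ^ 2) ^ 3 := pow_le_pow_left₀ hA0 hA 3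
    calc 4 * (s ^ 2 - 3 * e ^ 2) ^ 3 ≤ 4 * (4 * (T : ℤ) ^ 2) ^ 3 := by linarith
      _ = 256 * (T : ℤ) ^ 6 := by ring
      _ ≤ H := by linarith
  have hc2 : 27 * (c4 (a, b)).2 ^ 2 ≤ H := by
    rw [e2]
    have h1 : (e * (s ^ 2 - 2 * e ^ 2)) ^ 2 ≤ (4 * (T : ℤ) ^ 3) ^ 2 := pow_le_pow_left₀ hB0 hB 2
    calc 27 * (e * (2 * e ^ 2 - s ^ 2)) ^ 2 = 27 * (e * (s ^ 2 - 2 * e ^ 2)) ^ 2 := by ring
      _ ≤ 27 * (4 * (T : ℤ) ^ 3) ^ 2 := by linarith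
      _ = 432 * (T : ℤ) ^ 6 := by ring
      _ ≤ H := hHI
  have b1 : |(c4 (a, b)).1| ≤ H := by
    have h1 := Pool.Agent.W29.RT.abs_le_cube (c4 (a, b)).1
    have h2 : 0 ≤ |(c4 (a, b)).1| := abs_nonneg _
    linarith
  have b2 : |(c4 (a, b)).2| ≤ H := by
    have h1 := Pool.Agent.W29.RT.abs_le_sq (c4 (a, b)).2
    have h2 : 0 ≤ (c4 (a, b)).2 ^ 2 := sq_nonneg _
    linarith
  have hpos : 0 < 4 * s ^ 2 - 9 * e ^ 2 := by nlinarith
  have hs0 : s ≠ 0 := by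
    intro h
    linarith
  have hne : 4 * (c4 (a, b)).1 ^ 3 + 27 * (c4 (a, b)).2 ^ 2 ≠ 0 := by
    have : 4 * (c4 (a, b)).1 ^ 3 + 27 * (c4 (a, b)).2 ^ 2 = s ^ 4 * (4 * s ^ 2 - 9 * e ^ 2) := by
      rw [e1, e2]
      ring
    rw [this]
    exact mul_ne_zero (pow_ne_zero 4 hs0) hpos.ne'
  unfold X4
  simp only [mem_filter, mem_product, mem_Icc]
  refine ⟨⟨abs_le.1 b1, abs_le.1 b2⟩, hne, hc1, hc2, fun p hp h => ?_, ?_⟩
  · have hpi : Prime (p : ℤ) := Nat.prime_iff_prime_int.1 hp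
    have d1 : (p : ℤ) ∣ s ^ 2 - 3 * e ^ 2 := by
      have h1 : (p : ℤ) ∣ (c4 (a, b)).1 := (dvd_pow_self (p : ℤ) four_ne_zero).trans h.1
      rwa [e1] at h1
    have d2 : (p : ℤ) ∣ e * (2 * e ^ 2 - s ^ 2) := by
      have h1 : (p : ℤ) ∣ (c4 (a, b)).2 := (dvd_pow_self (p : ℤ) (by norm_num)).trans h.2
      rwa [e2] at h1
    have h3 : (p : ℤ) ∣ e := by
      rcases hpi.dvd_or_dvd d2 with h1 | h1
      · exact h1
      · have h2 : (p : ℤ) ∣ e ^ 2 := by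
          have h4 : e ^ 2 = -((s ^ 2 - 3 * e ^ 2) + (2 * e ^ 2 - s ^ 2)) := by ring
          rw [h4, dvd_neg]
          exact dvd_add d1 h1
        exact hpi.dvd_of_dvd_pow h2
    have h4 : (p : ℤ) ∣ s := by
      have h5 : (p : ℤ) ∣ s ^ 2 := by
        have h6 : s ^ 2 = (s ^ 2 - 3 * e ^ 2) + e * (3 * e) := by ring
        rw [h6]
        exact dvd_add d1 (h3.mul_right _)
      exact hpi.dvd_of_dvd_pow h5
    have h5 : (p : ℤ) ∣ (a : ℤ) := by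
      have h6 : (a : ℤ) = s - e := by rw [hs, he]; ring
      rw [h6]
      exact dvd_sub h4 h3
    exact hpi.not_isUnit (hcI.isUnit_of_dvd' h5 h3)
  · exact hcy hs0 (by intro h; linarith)

lemma c4_inj {e s e' s' : ℤ} (he : 1 ≤ e) (hs : 2 * e < s) (he' : 1 ≤ e') (hs' : 2 * e' < s')
    (h1 : s ^ 2 - 3 * e ^ 2 = s' ^ 2 - 3 * e' ^ 2)
    (h2 : e * (2 * e ^ 2 - s ^ 2) = e' * (2 * e' ^ 2 - s' ^ 2)) : e = e' ∧ s = s' := by
  have h3 : (e' - e) * (e' ^ 2 + e * e' + s ^ 2 - 2 * e ^ 2) = 0 := by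
    linear_combination e' * h1 + h2
  have hes2 : (2 * e) ^ 2 < s ^ 2 := pow_lt_pow_left₀ hs (by linarith) two_ne_zero
  have h4 : 0 < e' ^ 2 + e * e' + s ^ 2 - 2 * e ^ 2 := by
    have h5 : 0 < e * e' := by positivity
    have h6 : 0 < e' ^ 2 := by positivity
    nlinarith
  have h5 : e' = e := by
    rcases mul_eq_zero.1 h3 with h | h
    · linarith
    · exact absurd h h4.ne'
  subst h5
  refine ⟨rfl, ?_⟩
  have h6 : s ^ 2 = s' ^ 2 := by linarith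
  exact (pow_left_inj₀ (by linarith) (by linarith) two_ne_zero).1 h6

theorem low4 (hconv : ∀ e s : ℤ, s ≠ 0 → 9 * e ^ 2 ≠ 4 * s ^ 2 →
      Cyc4 (EE (s ^ 2 - 3 * e ^ 2) (e * (2 * e ^ 2 - s ^ 2)))) :
    ∃ (c : ℝ) (C1 T1 : ℕ), 0 < c ∧ ∀ T H : ℕ, T1 ≤ T → C1 * T ^ 6 ≤ H →
      c * (T : ℝ) ^ 2 ≤ ((X4 H).card : ℝ) := by
  refine ⟨1 / 24, 432, 5, by norm_num, fun T H hT hH => ?_⟩
  have h1 : (Pool.Agent.W29.RT.SS T).card ≤ (X4 H).card := by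
    apply card_le_card_of_injOn (fun t => c4 (t.1, t.2))
    · intro t ht
      have ht' : t ∈ Pool.Agent.W29.RT.SS T := ht
      unfold Pool.Agent.W29.RT.SS at ht'
      rw [mem_sigma, mem_Icc, mem_filter, mem_range] at ht'
      obtain ⟨⟨k1, k2⟩, k3, k4⟩ := ht'
      have hb : 1 ≤ t.2 := by
        rcases Nat.eq_zero_or_pos t.2 with h | h
        · rw [h, Nat.coprime_zero_right] at k4; omega
        · exact h
      exact mem_x4 hconv hb k3 k2 k4 hH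
    · intro t ht t' ht' h
      have ht1 : t ∈ Pool.Agent.W29.RT.SS T := ht
      have ht1' : t' ∈ Pool.Agent.W29.RT.SS T := ht'
      unfold Pool.Agent.W29.RT.SS at ht1 ht1'
      rw [mem_sigma, mem_Icc, mem_filter, mem_range] at ht1 ht1'
      obtain ⟨⟨k1, k2⟩, k3, k4⟩ := ht1
      obtain ⟨⟨k1', k2'⟩, k3', k4'⟩ := ht1'
      have hb : 1 ≤ t.2 := by
        rcases Nat.eq_zero_or_pos t.2 with h | h
        · rw [h, Nat.coprime_zero_right] at k4; omega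
        · exact h
      have hb' : 1 ≤ t'.2 := by
        rcases Nat.eq_zero_or_pos t'.2 with h | h
        · rw [h, Nat.coprime_zero_right] at k4'; omega
        · exact h
      have h' : c4 (t.1, t.2) = c4 (t'.1, t'.2) := h
      simp only [c4, Prod.mk.injEq] at h'
      have j1 : (1 : ℤ) ≤ t.2 := by exact_mod_cast hb
      have j2 : (1 : ℤ) ≤ t'.2 := by exact_mod_cast hb'
      have j3 : (t.2 : ℤ) < t.1 := by exact_mod_cast k3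
      have j4 : (t'.2 : ℤ) < t'.1 := by exact_mod_cast k3'
      obtain ⟨e1, e2⟩ := c4_inj j1 (by linarith) j2 (by linarith) h'.1 h'.2
      have e2' : t.2 = t'.2 := by exact_mod_cast e1
      have e1' : t.1 = t'.1 := by
        have : (t.1 : ℤ) = t'.1 := by linarith
        exact_mod_cast this
      exact Sigma.ext e1' (heq_of_eq e2')
  have h2 := Pool.Agent.W29.RT.card_SS T hT
  have h3 : (T : ℝ) ^ 2 ≤ 24 * ((Pool.Agent.W29.RT.SS T).card : ℝ) := by exact_mod_cast h2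
  have h4 : ((Pool.Agent.W29.RT.SS T).card : ℝ) ≤ ((X4 H).card : ℝ) := by exact_mod_cast h1
  linarith

end Pool.Agent.H514.FR
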