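import Pool.Agent.H514.FR.Fin
import Pool.Agent.H514.FR.Low

/-! Project FR: consequences. -/

set_option autoImplicit false

open scoped Classical

namespace Pool.Agent.H514.FR

open Finset Filter Pool.Agent.W262.SH

/-- the number of the curves tends to infinity -/
theorem card_tendsto (hlow : LOW4) : Tendsto (fun H : ℕ => (X4 H).card) atTop atTop := by
  obtain ⟨c, C1, T1, hc, h⟩ := hlow
  rw [tendsto_atTop]
  intro b
  obtain ⟨T0, hT0⟩ := exists_nat_gt ((b : ℝ) / c)
  set T := max (max T0 T1) 1 with hT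
  rw [eventually_atTop]
  refine ⟨C1 * T ^ 6, fun H hH => ?_⟩
  have h1 := h T H ((le_max_right _ _).trans (le_max_left _ _)) hH
  have h2 : (T0 : ℝ) ≤ T := by exact_mod_cast (le_max_left _ _).trans (le_max_left _ _)
  have h3 : (1 : ℝ) ≤ T := by exact_mod_cast le_max_right _ _
  have h4 : (b : ℝ) < c * T0 := by
    rw [div_lt_iff₀ hc] at hT0
    linarith
  have h5 : c * (T0 : ℝ) ≤ c * (T : ℝ) ^ 2 := by
    apply mul_le_mul_of_nonneg_left _ hc.le
    nlinarith
  have h6 : (b : ℝ) ≤ ((X4 H).card : ℝ) := by linarith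
  exact_mod_cast h6

/-- bounded groups `Ш[2]` have density zero -/
theorem small_zero (hstr : STR) (hlow : LOW4) (K : ℕ) : Tendsto (fun H : ℕ =>
    (((X4 H).filter (fun c => Nat.card (Sha2 (EE c.1 c.2)) ≤ K)).card : ℝ) / (X4 H).card)
    atTop (nhds 0) := by
  obtain ⟨C, H0, h⟩ := two_turan hstr hlow
  set LL : ℕ → ℝ := fun H => Real.log (Real.log H) with hLL
  have hLLt : Tendsto LL atTop atTop :=
    Real.tendsto_log_atTop.comp (Real.tendsto_log_atTop.comp tendsto_natCast_atTop_atTop)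
  have hb : Tendsto (fun H : ℕ => C / LL H) atTop (nhds 0) :=
    hLLt.const_div_atTop C
  refine squeeze_zero' (Eventually.of_forall fun H => by positivity) ?_ hb
  have e1 := (tendsto_atTop.1 hLLt (2 * (Real.logb 2 (K + 1)) + 1))
  have e2 := (tendsto_atTop.1 hLLt 1)
  have e3 := (tendsto_atTop.1 (card_tendsto hlow) 1)
  filter_upwards [e1, e2, e3, eventually_ge_atTop H0] with H g1 g2 g3 g4
  have h1 := h H g4
  have hcard : (0 : ℝ) < (X4 H).card := by
    have : 0 < (X4 H).card := g3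
    exact_mod_cast this
  have hK0 : 0 ≤ Real.logb 2 (K + 1) := Real.logb_nonneg (by norm_num) (by
    have : (0 : ℝ) ≤ K := Nat.cast_nonneg K
    linarith)
  have hL : 0 < LL H := by linarith
  rw [div_le_div_iff₀ hcard hL]
  set S := (X4 H).filter (fun c => Nat.card (Sha2 (EE c.1 c.2)) ≤ K) with hS
  have h2 : (S.card : ℝ) * (LL H) ^ 2 ≤ ∑ c ∈ X4 H,
      (Real.logb 2 (Nat.card (Sha2 (EE c.1 c.2))) - 3 / 2 * Real.log (Real.log H)) ^ 2 := by
    have h3 : ∑ c ∈ S, (LL H) ^ 2 ≤ ∑ c ∈ S,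
        (Real.logb 2 (Nat.card (Sha2 (EE c.1 c.2))) - 3 / 2 * Real.log (Real.log H)) ^ 2 := by
      apply sum_le_sum
      intro c hc
      have hc2 := (mem_filter.1 hc).2
      have h4 : Real.logb 2 (Nat.card (Sha2 (EE c.1 c.2))) ≤ Real.logb 2 (K + 1) := by
        rcases Nat.eq_zero_or_pos (Nat.card (Sha2 (EE c.1 c.2))) with h5 | h5
        · rw [h5]
          simpa using hK0
        · apply Real.logb_le_logb_of_le (by norm_num) (by exact_mod_cast h5)
          have : (Nat.card (Sha2 (EE c.1 c.2)) : ℝ) ≤ K := by exact_mod_cast hc2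
          linarith
      have h5 : LL H ≤ 3 / 2 * LL H - Real.logb 2 (Nat.card (Sha2 (EE c.1 c.2))) := by linarith
      have h6 : (LL H) ^ 2 ≤ (3 / 2 * LL H - Real.logb 2 (Nat.card (Sha2 (EE c.1 c.2)))) ^ 2 :=
        pow_le_pow_left₀ hL.le h5 2
      calc (LL H) ^ 2 ≤ (3 / 2 * LL H - Real.logb 2 (Nat.card (Sha2 (EE c.1 c.2)))) ^ 2 := h6
        _ = _ := by rw [hLL]; ring
    rw [sum_const, nsmul_eq_mul] at h3
    exact h3.trans (sum_le_sum_of_subset_of_nonneg (filter_subset _ _) fun c _ _ => sq_nonneg _)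
  have h3 : (S.card : ℝ) * (LL H) ^ 2 ≤ C * LL H * (X4 H).card := h2.trans h1
  have h4 : (S.card : ℝ) * LL H * LL H ≤ C * (X4 H).card * LL H := by
    calc (S.card : ℝ) * LL H * LL H = (S.card : ℝ) * (LL H) ^ 2 := by ring
      _ ≤ _ := h3
      _ = _ := by ring
  exact le_of_mul_le_mul_right h4 hL

end Pool.Agent.H514.FR
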