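import Pool.Agent.H514.FR.Rk

/-! Project FR: the bound of the 4-rank for one curve. -/

set_option autoImplicit false

open scoped Classical

namespace Pool.Agent.H514.FR

open WeierstrassCurve Pool.Agent.W262.SH Pool.Agent.H514

open Pool.Agent.H514.IS (D)

open Pool.Agent.H905.SH (VC)

lemma D_eq (e s : ℤ) : D (-2 * (3 * e)) ((3 * e) ^ 2 - 4 * s ^ 2) =
    E (3 * e + 2 * s) (3 * e - 2 * s) := by
  apply WeierstrassCurve.ext
  · rfl
  · simp only [D, E]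
    push_cast
    ring
  · rfl
  · simp only [D, E]
    push_cast
    ring
  · rfl

/-- the two isogenies between the curve and the one with full 2-torsion -/
theorem two_iso {A B e s : ℤ} (hA : A = s ^ 2 - 3 * e ^ 2) (hB : B = e * (2 * e ^ 2 - s ^ 2))
    (hs : s ≠ 0) (hd : 9 * e ^ 2 ≠ 4 * s ^ 2) :
    ∃ (h : NQ (EE A B) (E (3 * e + 2 * s) (3 * e - 2 * s)))
      (h' : NQ (E (3 * e + 2 * s) (3 * e - 2 * s)) (EE A B)),
      (∀ (L : Type) [Field L] [Algebra ℚ L] (P : Pt (EE A B) L), h'.f L (h.f L P) = P + P) ∧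
      ∀ (L : Type) [Field L] [Algebra ℚ L] (P : Pt (E (3 * e + 2 * s) (3 * e - 2 * s)) L),
        h.f L (h'.f L P) = P + P := by
  obtain ⟨t, t', ht, ht'⟩ := transl hA hB
  have hb : s ^ 2 ≠ 0 := pow_ne_zero 2 hs
  have hd2 : (3 * e) ^ 2 - 4 * s ^ 2 ≠ 0 := by
    intro h
    apply hd
    linarith
  obtain ⟨i, i', hi, hi'⟩ := isog hb hd2
  have key : ∀ V : WeierstrassCurve ℚ, D (-2 * (3 * e)) ((3 * e) ^ 2 - 4 * s ^ 2) = V →
      ∃ (h : NQ (EE A B) V) (h' : NQ V (EE A B)),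
      (∀ (L : Type) [Field L] [Algebra ℚ L] (P : Pt (EE A B) L), h'.f L (h.f L P) = P + P) ∧
      ∀ (L : Type) [Field L] [Algebra ℚ L] (P : Pt V L), h.f L (h'.f L P) = P + P := by
    rintro V rfl
    refine ⟨t.comp i, i'.comp t', fun L _ _ P => ?_, fun L _ _ P => ?_⟩
    · rw [comp_f, comp_f, hi, map_add, ht]
    · rw [comp_f, comp_f, ht', hi']
  exact key _ (D_eq e s)

lemma ab_ne {e s : ℤ} (hs : s ≠ 0) (hd : 9 * e ^ 2 ≠ 4 * s ^ 2) :
    3 * e + 2 * s ≠ 0 ∧ 3 * e - 2 * s ≠ 0 ∧ 3 * e + 2 * s ≠ 3 * e - 2 * s := by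
  refine ⟨fun h => hd ?_, fun h => hd ?_, fun h => hs ?_⟩
  · have : 3 * e = -(2 * s) := by linarith
    have h2 : (3 * e) ^ 2 = (-(2 * s)) ^ 2 := by rw [this]
    linarith
  · have : 3 * e = 2 * s := by linarith
    have h2 : (3 * e) ^ 2 = (2 * s) ^ 2 := by rw [this]
    linarith
  · linarith

/-- the 4-rank and the rank -/
theorem four_le {A B e s : ℤ} (hA : A = s ^ 2 - 3 * e ^ 2) (hB : B = e * (2 * e ^ 2 - s ^ 2))
    (hs : s ≠ 0) (hd : 9 * e ^ 2 ≠ 4 * s ^ 2) :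
    (Fr (ShaQ (EE A B))).Finite ∧
    2 ^ Module.finrank ℤ (EE A B).toAffine.Point * (Fr (ShaQ (EE A B))).ncard ≤
      QS (3 * e + 2 * s) (3 * e - 2 * s) := by
  obtain ⟨h1, h2, h3⟩ := ab_ne hs hd
  obtain ⟨h, h', hh, hh'⟩ := two_iso hA hB hs hd
  have hfin : Finite {x : Sha (E (3 * e + 2 * s) (3 * e - 2 * s)) // x + x = 0} := by
    have g1 := (Pool.Agent.H905.SH.sh1 _ _ h1 h2 h3
      (Pool.Agent.W262.SH.selS_finite Pool.Agent.H905.SH.desc5 h1 h2 h3)).1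
    exact (Pool.Agent.H905.SH.sh2 _ _ h1 h2 h3 g1).1
  have hcard : Nat.card (Sha2 (E (3 * e + 2 * s) (3 * e - 2 * s))) =
      Nat.card {x : Sha (E (3 * e + 2 * s) (3 * e - 2 * s)) // x + x = 0} := by
    rw [sha2_eq]
  have hfin' : Finite (Sha2 (E (3 * e + 2 * s) (3 * e - 2 * s))) := by
    rw [sha2_eq]
    exact hfin
  have hset : {x : ShaQ (E (3 * e + 2 * s) (3 * e - 2 * s)) | x + x = 0}.Finite := hfin'
  obtain ⟨k1, k2⟩ := grp (sMap h) (sMap h') (fun x => sMap_dbl h h' (hh QB) x) hset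
  refine ⟨k1, ?_⟩
  have k3 : {x : ShaQ (E (3 * e + 2 * s) (3 * e - 2 * s)) | x + x = 0}.ncard =
      Nat.card (Sha2 (E (3 * e + 2 * s) (3 * e - 2 * s))) := by
    rw [← Nat.card_coe_set_eq]
    rfl
  have k4 : Module.finrank ℤ (EE A B).toAffine.Point =
      Module.finrank ℤ (E (3 * e + 2 * s) (3 * e - 2 * s)).toAffine.Point :=
    finrank_iso h h' hh hh'
  have k5 := Pool.Agent.W262.SH.wt_le Pool.Agent.H905.SH.desc5 Pool.Agent.H905.SH.sh1
    Pool.Agent.H905.SH.sh2 h1 h2 h3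
  have k6 : wt (3 * e + 2 * s) (3 * e - 2 * s) =
      (2 : ℝ) ^ Module.finrank ℤ (E (3 * e + 2 * s) (3 * e - 2 * s)).toAffine.Point *
        Nat.card {x : Sha (E (3 * e + 2 * s) (3 * e - 2 * s)) // x + x = 0} := rfl
  rw [k6, ← hcard, ← k4] at k5
  have k7 : 2 ^ Module.finrank ℤ (EE A B).toAffine.Point *
      Nat.card (Sha2 (E (3 * e + 2 * s) (3 * e - 2 * s))) ≤
        QS (3 * e + 2 * s) (3 * e - 2 * s) := by
    exact_mod_cast k5
  refine le_trans (Nat.mul_le_mul_left _ ?_) k7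
  rw [← k3]
  exact k2

/-- the change of variables to the quotient of the curve with full 2-torsion -/
lemma vc {A B e s : ℤ} (hA : A = s ^ 2 - 3 * e ^ 2) (hB : B = e * (2 * e ^ 2 - s ^ 2)) :
    VC (EE A B) (D (12 * e) (16 * s ^ 2)) (1 / 2) (e : ℚ) where
  hu := by norm_num
  a1 := rfl
  a3 := rfl
  b1 := rfl
  b3 := rfl
  h2 := by
    simp only [EE, D]
    push_cast
    ring
  h4 := by
    simp only [EE, D, hA]
    push_cast
    ring
  h6 := by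
    simp only [EE, D, hA, hB]
    push_cast
    ring

/-- the order of `Ш[2]` -/
theorem two_eq {A B e s : ℤ} (hA : A = s ^ 2 - 3 * e ^ 2) (hB : B = e * (2 * e ^ 2 - s ^ 2)) :
    Nonempty (Sha2 (D (2 * ((3 * e + 2 * s) + (3 * e - 2 * s)))
      (((3 * e + 2 * s) - (3 * e - 2 * s)) ^ 2)) ≃ Sha2 (EE A B)) := by
  have h1 : 2 * ((3 * e + 2 * s) + (3 * e - 2 * s)) = 12 * e := by ring
  have h2 : ((3 * e + 2 * s) - (3 * e - 2 * s)) ^ 2 = 16 * s ^ 2 := by ring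
  rw [h1, h2, sha2_eq, sha2_eq]
  exact (vc hA hB).two_equiv

/-- the 4-torsion of `Ш` is finite -/
theorem sha4_fin {A B e s : ℤ} (hA : A = s ^ 2 - 3 * e ^ 2) (hB : B = e * (2 * e ^ 2 - s ^ 2))
    (hs : s ≠ 0) (hd : 9 * e ^ 2 ≠ 4 * s ^ 2) :
    {x : ShaQ (EE A B) | (4 : ℕ) • x = 0}.Finite := by
  obtain ⟨h1, h2, h3⟩ := ab_ne hs hd
  have h4 := (Pool.Agent.H514.IS.sha_log h1 h2 h3).1
  obtain ⟨f⟩ := two_eq hA hB
  have h5 : Finite (Sha2 (EE A B)) := Finite.of_equiv _ f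
  exact fin4 h5

end Pool.Agent.H514.FR
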