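import Mathlib

/-! Project FR: the group lemma. -/

set_option autoImplicit false

namespace Pool.Agent.H514.FR

open scoped Classical

/-- the elements `2 y` with `4 y = 0` -/
def Fr (S : Type) [AddCommGroup S] : Set S := {x | ∃ y : S, (4 : ℕ) • y = 0 ∧ x = (2 : ℕ) • y}

lemma fin4 {S : Type} [AddCommGroup S] (hfin : {s : S | s + s = 0}.Finite) :
    {s : S | (4 : ℕ) • s = 0}.Finite := by
  refine Set.Finite.of_finite_fibers (fun s : S => s + s) (hfin.subset ?_) ?_
  · rintro _ ⟨s, hs, rfl⟩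
    have : (4 : ℕ) • s = 0 := hs
    change s + s + (s + s) = 0
    rw [← this, ← two_nsmul, ← two_nsmul, ← mul_nsmul]
  · rintro _ ⟨s, -, rfl⟩
    refine (hfin.image (fun t => s + t)).subset ?_
    rintro t ⟨-, ht⟩
    refine ⟨t - s, ?_, add_sub_cancel s t⟩
    have ht' : t + t = s + s := ht
    change t - s + (t - s) = 0
    have : t - s + (t - s) = t + t - (s + s) := by abel
    rw [this, ht', sub_self]

theorem grp {S S' : Type} [AddCommGroup S] [AddCommGroup S'] (f : S' →+ S) (g : S →+ S')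
    (hgf : ∀ x, g (f x) = x + x) (hfin : {s : S | s + s = 0}.Finite) :
    (Fr S').Finite ∧ (Fr S').ncard ≤ {s : S | s + s = 0}.ncard := by
  -- the 4-torsion and its image
  let K : AddSubgroup S' := (nsmulAddMonoidHom (α := S') 4).ker
  let M : AddSubgroup S := K.map f
  have hM4 : ∀ m ∈ M, (4 : ℕ) • m = 0 := by
    rintro _ ⟨k, hk, rfl⟩
    have hk' : (4 : ℕ) • k = 0 := hk
    rw [← map_nsmul, hk', map_zero]
  have hMfin : (M : Set S).Finite := (fin4 hfin).subset hM4
  have : Finite M := hMfin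
  have hFr : Fr S' = (M.map g : Set S') := by
    ext x
    constructor
    · rintro ⟨y, hy, rfl⟩
      refine ⟨f y, ⟨y, hy, rfl⟩, ?_⟩
      rw [hgf, two_nsmul]
    · rintro ⟨_, ⟨y, hy, rfl⟩, rfl⟩
      exact ⟨y, hy, by rw [hgf, two_nsmul]⟩
  have hFrfin : (Fr S').Finite := by
    rw [hFr, AddSubgroup.coe_map]
    exact hMfin.image g
  refine ⟨hFrfin, ?_⟩
  let φ : M →+ M := nsmulAddMonoidHom (α := M) 2
  have c1 : Nat.card M = Nat.card (M ⧸ φ.range) * Nat.card φ.range :=
    AddSubgroup.card_eq_card_quotient_mul_card_addSubgroup _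
  have c2 : Nat.card M = Nat.card φ.range * Nat.card φ.ker := by
    rw [AddSubgroup.card_eq_card_quotient_mul_card_addSubgroup φ.ker]
    congr 1
    exact Nat.card_congr (QuotientAddGroup.quotientKerEquivRange φ).toEquiv
  have hpos : 0 < Nat.card φ.range := Nat.card_pos
  have c3 : Nat.card (M ⧸ φ.range) = Nat.card φ.ker := by
    have h := c1.symm.trans c2
    rw [mul_comm] at h
    exact Nat.eq_of_mul_eq_mul_left hpos h
  -- the surjection
  have hker : φ.range ≤ (g.comp M.subtype).ker := by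
    rintro _ ⟨m, rfl⟩
    obtain ⟨k, hk, hkm⟩ := m.2
    have hk' : (4 : ℕ) • k = 0 := hk
    rw [AddMonoidHom.mem_ker]
    change g (((2 : ℕ) • m : M) : S) = 0
    have h1 : (((2 : ℕ) • m : M) : S) = f ((2 : ℕ) • k) := by
      rw [map_nsmul, hkm]
      rfl
    rw [h1, hgf, ← hk']
    rw [← two_nsmul, ← mul_nsmul]
  let ψ : M ⧸ φ.range →+ S' := QuotientAddGroup.lift φ.range (g.comp M.subtype) hker
  have hψ : Set.range ψ = Fr S' := by
    rw [hFr]
    ext x
    constructor
    · rintro ⟨q, rfl⟩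
      induction q using QuotientAddGroup.induction_on with
      | H m => exact ⟨m, m.2, rfl⟩
    · rintro ⟨m, hm, rfl⟩
      exact ⟨QuotientAddGroup.mk ⟨m, hm⟩, rfl⟩
  have c4 : (Fr S').ncard ≤ Nat.card (M ⧸ φ.range) := by
    rw [← hψ, ← Nat.card_coe_set_eq]
    exact Nat.card_le_card_of_surjective (Set.rangeFactorization ψ) Set.rangeFactorization_surjective
  refine c4.trans ?_
  rw [c3]
  rw [← Nat.card_coe_set_eq]
  have : Finite {s : S | s + s = 0} := hfin
  refine Nat.card_le_card_of_injective (fun m : φ.ker => (⟨((m : M) : S), ?_⟩ :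
    {s : S | s + s = 0})) ?_
  · have h := m.2
    rw [AddMonoidHom.mem_ker] at h
    have h' : (2 : ℕ) • (m : M) = 0 := h
    have h2 : ((2 : ℕ) • (m : M) : M) = ((0 : M)) := h'
    have h3 := congrArg (Subtype.val) h2
    change ((m : M) : S) + ((m : M) : S) = 0
    rw [← two_nsmul]
    exact h3
  · intro m m' h
    apply Subtype.ext
    apply Subtype.ext
    exact congrArg (fun x : {s : S | s + s = 0} => (x : S)) h

end Pool.Agent.H514.FR
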