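import Pool.Agent.H514.FR.Defs2
import Pool.Agent.H514.FR.Grp

/-! Project FR: the isogenies and the 4-rank. -/

set_option autoImplicit false

open scoped Classical

namespace Pool.Agent.H514.FR

open WeierstrassCurve Pool.Agent.W262.SH

open Pool.Agent.H514.IS (D)

open Pool.Agent.R432 (NH KDat Tr)

/-- change of the definitions -/
noncomputable def ofNH {W W' : WeierstrassCurve ℚ} (h : NH W W') : NQ W W' where
  f L _ _ := h.f L
  nat φ P := h.nat φ P

/-- the composition -/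
noncomputable def NQ.comp {W W' W'' : WeierstrassCurve ℚ} (h : NQ W W') (h' : NQ W' W'') :
    NQ W W'' where
  f L _ _ := (h'.f L).comp (h.f L)
  nat φ P := by
    change act W'' φ (h'.f _ (h.f _ P)) = h'.f _ (h.f _ (act W φ P))
    rw [h'.nat, h.nat]

lemma comp_f {W W' W'' : WeierstrassCurve ℚ} (h : NQ W W') (h' : NQ W' W'') (L : Type) [Field L]
    [Algebra ℚ L] (P : Pt W L) : (h.comp h').f L P = h'.f L (h.f L P) := rfl

/-- isomorphisms preserve the order of the 2-torsion of `Ш` -/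
theorem card_two {W W' : WeierstrassCurve ℚ} (h : NQ W W') (h' : NQ W' W)
    (h1 : ∀ P : Pt W QB, h'.f QB (h.f QB P) = P) (h2 : ∀ P : Pt W' QB, h.f QB (h'.f QB P) = P) :
    Nat.card (Sha2 W) = Nat.card (Sha2 W') := by
  refine Nat.card_congr ?_
  exact {
    toFun := fun x => ⟨sMap h x.1, by rw [← map_add, x.2, map_zero]⟩
    invFun := fun x => ⟨sMap h' x.1, by rw [← map_add, x.2, map_zero]⟩
    left_inv := fun x => Subtype.ext (sMap_id h h' h1 x.1)
    right_inv := fun x => Subtype.ext (sMap_id h' h h2 x.1) }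

/-- the translation -/
theorem transl {A B e s : ℤ} (hA : A = s ^ 2 - 3 * e ^ 2) (hB : B = e * (2 * e ^ 2 - s ^ 2)) :
    ∃ (h : NQ (EE A B) (D (3 * e) (s ^ 2))) (h' : NQ (D (3 * e) (s ^ 2)) (EE A B)),
      (∀ (L : Type) [Field L] [Algebra ℚ L] (P : Pt (EE A B) L), h'.f L (h.f L P) = P) ∧
      ∀ (L : Type) [Field L] [Algebra ℚ L] (P : Pt (D (3 * e) (s ^ 2)) L),
        h.f L (h'.f L P) = P := by
  have S : Tr (e : ℚ) (EE A B) (D (3 * e) (s ^ 2)) := by
    refine ⟨rfl, rfl, rfl, rfl, ?_, ?_, ?_⟩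
    · simp only [EE, D]
      push_cast
      ring
    · simp only [EE, D, hA]
      push_cast
      ring
    · simp only [EE, D, hA, hB]
      push_cast
      ring
  have S' : Tr (-(e : ℚ)) (D (3 * e) (s ^ 2)) (EE A B) := by
    refine ⟨rfl, rfl, rfl, rfl, ?_, ?_, ?_⟩
    · simp only [EE, D]
      push_cast
      ring
    · simp only [EE, D, hA]
      push_cast
      ring
    · simp only [EE, D, hA, hB]
      push_cast
      ring
  have S'' : Tr (-(-(e : ℚ))) (EE A B) (D (3 * e) (s ^ 2)) := by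
    rw [neg_neg]
    exact S
  refine ⟨ofNH (NH.tr S), ofNH (NH.tr S'), fun L _ _ P => Pool.Agent.R432.trH_inv S S' L P,
    fun L _ _ P => ?_⟩
  have h := Pool.Agent.R432.trH_inv S' S'' L P
  have h3 : Pool.Agent.R432.trH S'' L = Pool.Agent.R432.trH S L := by
    apply AddMonoidHom.ext
    intro Q
    rcases Q with _ | ⟨x, y, hxy⟩
    · rfl
    · rw [Pool.Agent.R432.trH_some, Pool.Agent.R432.trH_some]
      exact Pool.Agent.R432.pt_congr _ _ _ (by rw [neg_neg]) rfl
  rw [h3] at h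
  exact h

/-- the isogenies -/
theorem isog {a b : ℤ} (hb : b ≠ 0) (hd : a ^ 2 - 4 * b ≠ 0) :
    ∃ (h : NQ (D a b) (D (-2 * a) (a ^ 2 - 4 * b))) (h' : NQ (D (-2 * a) (a ^ 2 - 4 * b)) (D a b)),
      (∀ (L : Type) [Field L] [Algebra ℚ L] (P : Pt (D a b) L), h'.f L (h.f L P) = P + P) ∧
      ∀ (L : Type) [Field L] [Algebra ℚ L] (P : Pt (D (-2 * a) (a ^ 2 - 4 * b)) L),
        h.f L (h'.f L P) = P + P := by
  have hb' : (b : ℚ) ≠ 0 := by exact_mod_cast hb
  have hd' : (a : ℚ) ^ 2 - 4 * b ≠ 0 := by exact_mod_cast hd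
  have K1 : KDat (D a b) (D (-2 * a) (a ^ 2 - 4 * b)) (a : ℚ) (b : ℚ) (-2 * a) (a ^ 2 - 4 * b) 1 := by
    refine ⟨rfl, ?_, ?_⟩
    · unfold D
      push_cast
      rfl
    · exact { hb := hb', hb' := hd', hu := one_ne_zero, e1 := by ring, e2 := by ring }
  have K2 : KDat (D (-2 * a) (a ^ 2 - 4 * b)) (D a b) (-2 * (a : ℚ)) (a ^ 2 - 4 * b) a b 2 := by
    refine ⟨?_, rfl, ?_⟩
    · unfold D
      push_cast
      rfl
    · exact { hb := hd', hb' := hb', hu := two_ne_zero, e1 := by ring, e2 := by ring }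
  exact ⟨ofNH (NH.iso K1), ofNH (NH.iso K2),
    fun L _ _ P => Pool.Agent.R432.isoH_dbl L K1 K2 (by norm_num) P,
    fun L _ _ P => Pool.Agent.R432.isoH_dbl L K2 K1 (by norm_num) P⟩

end Pool.Agent.H514.FR
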