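import Pool.Agent.H514.FR.Iso
import Pool.Agent.H514.FinK

/-! Project FR: the rank and the 4-rank. -/

set_option autoImplicit false

open scoped Classical

namespace Pool.Agent.H514.FR

open WeierstrassCurve Pool.Agent.W262.SH

open Pool.Agent.H514.IS (D)

open Pool.Agent.H905.SH (VC)

lemma rank_le {M N : Type} [AddCommGroup M] [AddCommGroup N] (f : M →+ N) (g : N →+ M)
    (h : ∀ x, g (f x) = x + x) : Module.rank ℤ M ≤ Module.rank ℤ N := by
  set F : M →ₗ[ℤ] N := f.toIntLinearMap with hF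
  have hk : LinearMap.ker F ≤ Submodule.torsion ℤ M := by
    intro x hx
    rw [LinearMap.mem_ker] at hx
    have hx' : f x = 0 := hx
    refine (Submodule.mem_torsion_iff x).2 ⟨⟨2, mem_nonZeroDivisors_of_ne_zero (by norm_num)⟩, ?_⟩
    change (2 : ℤ) • x = 0
    rw [two_zsmul, ← h, hx', map_zero]
  rw [← rank_quotient_eq_of_le_torsion hk]
  exact LinearMap.rank_le_of_injective ((LinearMap.ker F).liftQ F le_rfl)
    (LinearMap.ker_eq_bot.1 (Submodule.ker_liftQ_eq_bot _ _ _ le_rfl))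

lemma finrank_eq {M N : Type} [AddCommGroup M] [AddCommGroup N] (f : M →+ N) (g : N →+ M)
    (h : ∀ x, g (f x) = x + x) (h' : ∀ x, f (g x) = x + x) :
    Module.finrank ℤ M = Module.finrank ℤ N := by
  unfold Module.finrank
  rw [le_antisymm (rank_le f g h) (rank_le g f h')]

lemma finrank_dec (W : WeierstrassCurve ℚ) (d1 d2 : DecidableEq ℚ) :
    @Module.finrank ℤ W.toAffine.Point _
      (@AddCommGroup.toAddCommMonoid _ (@Affine.Point.instAddCommGroup ℚ _ W.toAffine d1))
      (@AddCommGroup.toIntModule _ (@Affine.Point.instAddCommGroup ℚ _ W.toAffine d1)) =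
    @Module.finrank ℤ W.toAffine.Point _
      (@AddCommGroup.toAddCommMonoid _ (@Affine.Point.instAddCommGroup ℚ _ W.toAffine d2))
      (@AddCommGroup.toIntModule _ (@Affine.Point.instAddCommGroup ℚ _ W.toAffine d2)) := by
  have : d1 = d2 := Subsingleton.elim _ _
  subst this
  rfl

lemma finrank_pt (W : WeierstrassCurve ℚ) :
    Module.finrank ℤ (@Pt W ℚ _ (Algebra.id ℚ)) = Module.finrank ℤ W.toAffine.Point :=
  finrank_dec W _ _

/-- a natural family of homomorphisms, its reverse and the doubling -/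
lemma finrank_iso {W W' : WeierstrassCurve ℚ} (h : NQ W W') (h' : NQ W' W)
    (hd : ∀ (L : Type) [Field L] [Algebra ℚ L] (P : Pt W L), h'.f L (h.f L P) = P + P)
    (hd' : ∀ (L : Type) [Field L] [Algebra ℚ L] (P : Pt W' L), h.f L (h'.f L P) = P + P) :
    Module.finrank ℤ W.toAffine.Point = Module.finrank ℤ W'.toAffine.Point := by
  rw [← finrank_pt, ← finrank_pt]
  exact finrank_eq (M := @Pt W ℚ _ (Algebra.id ℚ)) (N := @Pt W' ℚ _ (Algebra.id ℚ))
    (@NQ.f _ _ h ℚ _ (Algebra.id ℚ)) (@NQ.f _ _ h' ℚ _ (Algebra.id ℚ))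
    (@hd ℚ _ (Algebra.id ℚ)) (@hd' ℚ _ (Algebra.id ℚ))

end Pool.Agent.H514.FR
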